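import Pool.Agent.Lib.MP_fa837f_gt.P2.Iface

/-!
Row TR: translations are continuous in `L²`.
-/

set_option autoImplicit false

open MeasureTheory Matrix Set Filter Topology

namespace Pool.Agent.Lib.MP_fa837f_gt.P2.H9

/-- TR. -/
theorem tr_st : TrStatement := by
  intro ι _ g hg hg2
  have hm : MemLp g 2 volume := by
    rw [memLp_two_iff_integrable_sq hg]
    exact hg2
  have hp : Fact ((2 : ENNReal) ≠ ⊤) := ⟨by norm_num⟩
  let G : Lp ℝ 2 (volume : Measure (ι → ℝ)) := hm.toLp g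
  have hc : Continuous fun v : ι → ℝ => (DomAddAct.mk (-v) +ᵥ G) - G := by
    refine Continuous.sub ?_ continuous_const
    have h1 : Continuous fun v : ι → ℝ => DomAddAct.mk (-v) :=
      DomAddAct.continuous_mk.comp continuous_neg
    exact h1.vadd continuous_const
  have h0 : (DomAddAct.mk (-(0 : ι → ℝ)) +ᵥ G) - G = 0 := by
    have : DomAddAct.mk (-(0 : ι → ℝ)) = (0 : (ι → ℝ)ᵈᵃᵃ) := by simp
    rw [this, zero_vadd, sub_self]
  have ht : Tendsto (fun v : ι → ℝ => ‖(DomAddAct.mk (-v) +ᵥ G) - G‖ ^ 2) (𝓝 0) (𝓝 0) := by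
    have hc2 : Continuous fun v : ι → ℝ => ‖(DomAddAct.mk (-v) +ᵥ G) - G‖ ^ 2 := hc.norm.pow 2
    have := hc2.tendsto (0 : ι → ℝ)
    rwa [h0, norm_zero, show ((0 : ℝ) ^ 2) = 0 by norm_num] at this
  refine ht.congr fun v => ?_
  have hmp : MeasurePreserving (fun x : ι → ℝ => (-v) +ᵥ x) volume volume :=
    measurePreserving_vadd (-v) volume
  have hv : MemLp (fun x : ι → ℝ => g ((-v) +ᵥ x)) 2 volume := hm.comp_measurePreserving hmp
  have e1 : DomAddAct.mk (-v) +ᵥ G = hv.toLp _ := DomAddAct.mk_vadd_toLp (-v) hm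
  rw [e1, ← MemLp.toLp_sub]
  have hs : MemLp ((fun x : ι → ℝ => g ((-v) +ᵥ x)) - g) 2 volume := hv.sub hm
  have h3 : ‖hs.toLp ((fun x : ι → ℝ => g ((-v) +ᵥ x)) - g)‖ ^ 2 =
      ∫ x, (g (x - v) - g x) ^ 2 := by
    rw [← real_inner_self_eq_norm_sq, L2.inner_def]
    refine integral_congr_ae ?_
    filter_upwards [hs.coeFn_toLp] with x hx
    rw [hx]
    simp only [Pi.sub_apply, vadd_eq_add, real_inner_self_eq_norm_sq, Real.norm_eq_abs, sq_abs]
    rw [show -v + x = x - v by abel]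
  exact h3

end Pool.Agent.Lib.MP_fa837f_gt.P2.H9
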