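import Pool.Agent.Lib.MP_fa837f_gt.P2.Iface

/-!
Row PO: the Poincaré inequality of a system.
-/

set_option autoImplicit false

open MeasureTheory Matrix Set Filter Topology

namespace Pool.Agent.Lib.MP_fa837f_gt.P2.H9

theorem pb_sum {k : ℕ} (hT : TmStatement) {ι : Type} (s : Finset ι) (f : ι → Pt k → ℝ)
    (h : ∀ i, PB (f i)) : PB fun y => ∑ i ∈ s, f i y := by
  classical
  induction s using Finset.induction_on with
  | empty => exact ⟨0, 0, fun y => by simp⟩
  | insert a s ha ih =>
    simp only [Finset.sum_insert ha]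
    exact ((hT k).2.2.2.2.1 _ _ (h a) ih).1

/-- PO. -/
theorem po_st (hTM : TmStatement) (hTS : TsStatement) (hIn : InStatement) (hPa : PaStatement)
    (hBo : BoStatement) (hDi : DiStatement) : PoStatement := by
  intro n k S f hf
  have hD := hDi n k S
  have hTS' := hTS n k S (fun _ => 0)
  have hmul : ∀ f g : Pt k → ℝ, PB f → PB g → PB (fun y => f y * g y) :=
    fun f g a b => ((hTM k).2.2.2.2.1 f g a b).2
  have hfc : Continuous f := hf.smooth.continuous
  have hpdc : ∀ p, Continuous (pd p f) := by
    intro p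
    exact (hf.smooth.continuous_fderiv one_ne_zero).clm_apply continuous_const
  refine hPa _ S.rho S.A hD (hBo n k S) f hf.smooth ?_ ?_
  · refine hIn n k S (fun y => f y ^ 2) (hfc.pow 2) ?_
    have := hmul f f hf.bd hf.bd
    simpa only [sq] using this
  · refine hIn n k S (fun y => Gam S.A f f y) ?_ ?_
    · unfold Gam
      refine continuous_finsetSum _ fun p _ => continuous_finsetSum _ fun q _ => ?_
      exact (((hD.sA p q).continuous).mul (hpdc p)).mul (hpdc q)
    · unfold Gam
      refine pb_sum hTM _ _ fun p => pb_sum hTM _ _ fun q => ?_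
      exact hmul _ _ (hmul _ _ (hTS'.pA p q) (hf.dbd p)) (hf.dbd q)

end Pool.Agent.Lib.MP_fa837f_gt.P2.H9
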